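import Pool.Agent.Y329.NS.Stm

/-!
# The terms of the lower central series are connected
-/

set_option autoImplicit false

namespace Pool.Agent.Y497.NS.P3

open scoped commutatorElement
open Pool.Agent.Y329.NS Topology

theorem preconn_closure {G : Type} [Group G] [TopologicalSpace G] [IsTopologicalGroup G]
    (T : Set G) (H : Subgroup G) (hH : H = Subgroup.closure T)
    (h : ∀ t ∈ T, ∃ C : Set G, IsPreconnected C ∧ (1 : G) ∈ C ∧ t ∈ C ∧ C ⊆ (H : Set G)) :
    IsPreconnected (H : Set G) := by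
  subst hH
  have key : ∀ x ∈ Subgroup.closure T, ∃ C : Set G, IsPreconnected C ∧ (1 : G) ∈ C ∧ x ∈ C ∧
      C ⊆ (Subgroup.closure T : Set G) := by
    intro x hx
    induction hx using Subgroup.closure_induction with
    | mem x hx => exact h x hx
    | one =>
      refine ⟨{1}, isPreconnected_singleton, rfl, rfl, ?_⟩
      rintro _ rfl
      exact Subgroup.one_mem _
    | mul x y _ _ ihx ihy =>
      obtain ⟨C, hC, h1, hxC, hCT⟩ := ihx
      obtain ⟨D, hD, h1', hyD, hDT⟩ := ihy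
      refine ⟨(fun p : G × G => p.1 * p.2) '' (C ×ˢ D),
        (hC.prod hD).image _ (continuous_mul.continuousOn), ⟨(1, 1), ⟨h1, h1'⟩, by simp⟩,
        ⟨(x, y), ⟨hxC, hyD⟩, rfl⟩, ?_⟩
      rintro _ ⟨⟨a, b⟩, ⟨ha, hb⟩, rfl⟩
      exact Subgroup.mul_mem _ (hCT ha) (hDT hb)
    | inv x _ ihx =>
      obtain ⟨C, hC, h1, hxC, hCT⟩ := ihx
      refine ⟨(fun p : G => p⁻¹) '' C, hC.image _ continuous_inv.continuousOn, ⟨1, h1, by simp⟩,
        ⟨x, hxC, rfl⟩, ?_⟩
      rintro _ ⟨a, ha, rfl⟩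
      exact Subgroup.inv_mem _ (hCT ha)
  exact isPreconnected_of_forall 1 fun y hy => by
    obtain ⟨C, hC, h1, hy', hCT⟩ := key y hy
    exact ⟨C, hCT, h1, hy', hC⟩

theorem done : S_P3 := by
  intro G _ _ _ A₁ hA hG n hn
  induction n, hn using Nat.le_induction with
  | base =>
    refine preconn_closure { x | ∃ p ∈ (⊤ : Subgroup G).lowerCentralSeries 0,
      ∃ q ∈ (⊤ : Subgroup G), ⁅p, q⁆ = x } _ rfl ?_
    rintro _ ⟨x, -, y, -, rfl⟩
    obtain ⟨u, hu, a, ha, rfl⟩ := hG x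
    obtain ⟨v, hv, b, hb, rfl⟩ := hG y
    have hC : IsPreconnected (connectedComponent (1 : G)) := isPreconnected_connectedComponent
    refine ⟨(fun p : G × G => ⁅p.1 * a, p.2 * b⁆) ''
      (connectedComponent (1 : G) ×ˢ connectedComponent (1 : G)),
      (hC.prod hC).image _ (Continuous.continuousOn ?_), ⟨(1, 1),
        ⟨mem_connectedComponent, mem_connectedComponent⟩, ?_⟩, ⟨(u, v), ⟨hu, hv⟩, rfl⟩, ?_⟩
    · simp only [commutatorElement_def]
      fun_prop
    · simp only [one_mul]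
      rw [commutatorElement_eq_one_iff_mul_comm]
      exact hA a ha b hb
    · rintro _ ⟨⟨s, t⟩, -, rfl⟩
      exact Subgroup.commutator_mem_commutator (Subgroup.mem_top _) (Subgroup.mem_top _)
  | succ n hn ih =>
    refine preconn_closure { x | ∃ p ∈ (⊤ : Subgroup G).lowerCentralSeries n,
      ∃ q ∈ (⊤ : Subgroup G), ⁅p, q⁆ = x } _ rfl ?_
    rintro _ ⟨x, hx, y, -, rfl⟩
    refine ⟨(fun p : G => ⁅p, y⁆) '' (lcs G n : Set G), ih.image _ (Continuous.continuousOn ?_),
      ⟨1, Subgroup.one_mem _, ?_⟩, ⟨x, hx, rfl⟩, ?_⟩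
    · simp only [commutatorElement_def]
      fun_prop
    · simp
    · rintro _ ⟨s, hs, rfl⟩
      exact Subgroup.commutator_mem_commutator hs (Subgroup.mem_top _)

end Pool.Agent.Y497.NS.P3
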