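import Pool.Agent.Y329.NS.Stm
import Pool.Agent.TH264.Bridge.PW

/-!
# Characters of a closed cocompact subgroup
-/

set_option autoImplicit false

namespace Pool.Agent.Y497.NS.P5

open Pool.Agent.Y329.NS Pool.Agent.TH264.Bridge Topology

theorem compactK {G : Type} [Group G] [TopologicalSpace G] [IsTopologicalGroup G]
    (Λ S D : Subgroup G) [CompactSpace (G ⧸ Λ)] (hΛS : Λ ≤ S) (hSD : S ≤ D)
    (hD : IsClosed (D : Set G)) : CompactSpace (D ⧸ S.subgroupOf D) := by
  let f : G → G ⧸ Λ := QuotientGroup.mk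
  let E : Set (G ⧸ Λ) := f '' (D : Set G)
  have hfc : Continuous f := QuotientGroup.continuous_mk
  have hfo : IsOpenMap f := QuotientGroup.isOpenMap_coe
  have hfs : Function.Surjective f := Quotient.mk_surjective
  have hpre : f ⁻¹' E = (D : Set G) := by
    ext x
    constructor
    · rintro ⟨y, hy, hyx⟩
      have h1 : y⁻¹ * x ∈ Λ := QuotientGroup.eq.1 hyx
      have h2 : x = y * (y⁻¹ * x) := by group
      rw [h2]
      exact D.mul_mem hy (hSD (hΛS h1))
    · intro hx
      exact ⟨x, hx, rfl⟩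
  have hE : IsClosed E := by
    rw [← (hfo.isQuotientMap hfc hfs).isClosed_preimage, hpre]
    exact hD
  have : CompactSpace E := isCompact_iff_compactSpace.1 hE.isCompact
  let g : E → D ⧸ S.subgroupOf D := fun e => QuotientGroup.mk ⟨e.2.choose, e.2.choose_spec.1⟩
  have hgx : ∀ (x : G) (hx : x ∈ D), g ⟨f x, ⟨x, hx, rfl⟩⟩ =
      (QuotientGroup.mk (⟨x, hx⟩ : D) : D ⧸ S.subgroupOf D) := by
    intro x hx
    have hex : ∃ y, y ∈ (D : Set G) ∧ f y = f x := ⟨x, hx, rfl⟩
    have h1 := hex.choose_spec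
    change (QuotientGroup.mk (⟨hex.choose, h1.1⟩ : D) : D ⧸ S.subgroupOf D) = _
    rw [QuotientGroup.eq]
    rw [Subgroup.mem_subgroupOf]
    exact hΛS (QuotientGroup.eq.1 h1.2)
  have hq : IsQuotientMap (E.restrictPreimage f) := by
    refine IsOpenMap.isQuotientMap (hfo.restrictPreimage E) (hfc.restrictPreimage) ?_
    rintro ⟨_, x, hx, rfl⟩
    exact ⟨⟨x, ⟨x, hx, rfl⟩⟩, rfl⟩
  have hg : Continuous g := by
    rw [hq.continuous_iff]
    have hD' : ∀ x : f ⁻¹' E, (x : G) ∈ D := fun x =>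
      (Set.ext_iff.1 hpre (x : G)).1 x.2
    have h2 : g ∘ E.restrictPreimage f =
        fun x : f ⁻¹' E => (QuotientGroup.mk (⟨x, hD' x⟩ : D) : D ⧸ S.subgroupOf D) := by
      funext x
      exact hgx x (hD' x)
    rw [h2]
    exact QuotientGroup.continuous_mk.comp (Continuous.subtype_mk continuous_subtype_val _)
  have hs : Function.Surjective g := by
    intro k
    obtain ⟨⟨x, hx⟩, rfl⟩ := Quotient.mk_surjective k
    exact ⟨⟨f x, ⟨x, hx, rfl⟩⟩, hgx x hx⟩
  exact hs.compactSpace hg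

theorem done : S_P5 := by
  intro G _ _ _ Λ S D _ hΛS hSD hS hD hcom hq
  obtain ⟨q, hqD, hqS⟩ := hq
  have hn : (S.subgroupOf D).Normal := by
    refine ⟨fun n hn g => ?_⟩
    rw [Subgroup.mem_subgroupOf] at hn ⊢
    have h1 := S.mul_mem (hcom g g.2 n n.2) hn
    simpa using h1
  have hcl : IsClosed ((S.subgroupOf D : Subgroup D) : Set D) :=
    hS.preimage continuous_subtype_val
  have := compactK Λ S D hΛS hSD hD
  let : CommGroup (D ⧸ S.subgroupOf D) :=
    { (inferInstance : Group (D ⧸ S.subgroupOf D)) with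
      mul_comm := by
        intro a b
        obtain ⟨x, rfl⟩ := Quotient.mk_surjective a
        obtain ⟨y, rfl⟩ := Quotient.mk_surjective b
        change (QuotientGroup.mk (x * y) : D ⧸ S.subgroupOf D) = QuotientGroup.mk (y * x)
        rw [QuotientGroup.eq, Subgroup.mem_subgroupOf]
        have h1 := hcom (y : G)⁻¹ (D.inv_mem y.2) (x : G)⁻¹ (D.inv_mem x.2)
        simpa [mul_assoc] using h1 }
  have : T2Space (D ⧸ S.subgroupOf D) := inferInstance
  have hk : (QuotientGroup.mk (⟨q, hqD⟩ : D) : D ⧸ S.subgroupOf D) ≠ 1 := by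
    intro h
    rw [QuotientGroup.eq_one_iff, Subgroup.mem_subgroupOf] at h
    exact hqS h
  obtain ⟨χ, hχ, hχk⟩ := char_sep_mul (D ⧸ S.subgroupOf D) _ hk
  refine ⟨χ.comp (QuotientGroup.mk' (S.subgroupOf D)), ?_, ?_, ⟨⟨q, hqD⟩, hχk⟩⟩
  · exact hχ.comp QuotientGroup.continuous_mk
  · intro x hx
    have h1 : (QuotientGroup.mk x : D ⧸ S.subgroupOf D) = 1 := by
      rw [QuotientGroup.eq_one_iff, Subgroup.mem_subgroupOf]
      exact hx
    change χ (QuotientGroup.mk x) = 1
    rw [h1, map_one]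

end Pool.Agent.Y497.NS.P5
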